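import Pool.Agent.Helper21.NS.Win
import Pool.Agent.Helper57.NW.Defs

/-!
# NW, block W: the number of the zeros in the window
-/

set_option autoImplicit false
open MeasureTheory Set Filter Topology
open Pool.Agent.Helper93.UG (zc sp)
open Pool.Agent.Helper57.NW

namespace Pool.Agent.Helper10.NW

/-- W: at most `L` zeros in the window -/
theorem win_of (h1 : Pool.Agent.Helper93.UX.TX1) {d : ℝ} (hd : 0 < d) (_hd1 : d ≤ 1) : ∃ C T₀ : ℝ, 1 ≤ C ∧
    ∀ T R L : ℝ, T₀ ≤ T → C ≤ L → L ≤ Real.log T → 1 ≤ R → R ≤ L ^ (1 - d) →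
    volume {t : ℝ | t ∈ Icc (T / 2) (3 * T) ∧ L < (zc (Wr T R 2 t) : ℝ)} ≤ ENNReal.ofReal (C * L ^ (-4 : ℝ) * T) := by
  obtain ⟨C, T₀, hC, h⟩ := Pool.Agent.Helper21.NS.win_of h1 (k₁ := max (1 - d) (1 / 2)) (k₂ := 1) (B := 4)
    (lt_of_lt_of_le (by norm_num) (le_max_right _ _)) (max_lt (by linarith) (by norm_num))
    (max_lt (by linarith) (by norm_num)) (by norm_num)
  refine ⟨C, T₀, hC, fun T R L hT hL hLT hR hRL => ?_⟩
  have hL1 : 1 ≤ L := hC.trans hL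
  have h2 : L ^ (1 - d) ≤ L ^ max (1 - d) (1 / 2) := Real.rpow_le_rpow_of_exponent_le hL1 (le_max_left _ _)
  have h3 := h T L (2 * R) hT hL hLT (by linarith) (by linarith)
  rw [Real.rpow_one] at h3
  exact h3

end Pool.Agent.Helper10.NW
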