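import Pool.Agent.Helper10.NW.Win
import Pool.Agent.Helper57.TX.Final

/-!
# NW, block W: the number of the zeros in the window, without hypothesis
-/

set_option autoImplicit false
open MeasureTheory Set Filter Topology
open Pool.Agent.Helper93.UG (zc sp)
open Pool.Agent.Helper57.NW

namespace Pool.Agent.Helper10.NW

/-- W: at most `L` zeros in the window -/
theorem win {d : ℝ} (hd : 0 < d) (hd1 : d ≤ 1) : ∃ C T₀ : ℝ, 1 ≤ C ∧ ∀ T R L : ℝ, T₀ ≤ T → C ≤ L → L ≤ Real.log T →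
    1 ≤ R → R ≤ L ^ (1 - d) →
    volume {t : ℝ | t ∈ Icc (T / 2) (3 * T) ∧ L < (zc (Wr T R 2 t) : ℝ)} ≤ ENNReal.ofReal (C * L ^ (-4 : ℝ) * T) :=
  win_of Pool.Agent.Helper57.TX.tx1 hd hd1

end Pool.Agent.Helper10.NW
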